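import Mathlib

set_option autoImplicit false

/-!
# Two-level families of words: the shadow is not minimal for every alphabet with at least three
letters and every length at least four

For `r ≥ 3` and `n ≥ 4` let `F` be the family of the words of length `n` over the letters `1, 2, 3`
which have no letter `3`, or exactly one letter `3` and at most `⌊n/2⌋ - 1` letters `2`. For even
`n = 2 m` the family `G` of the words over `1, 2, 3` with no letter `3`, or exactly one letter `3`,
which is in the second half of the word, has the same number `2 ^ (2 m) + m 2 ^ (2 m - 1)` of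
elements, and `|∂ G| = |G| / 2 < |∂ F|`. For odd `n = 2 m + 1` one takes the words in which the only
letter `3` is one of the last `m - 1` letters, or the `m`-th last one and followed by `1`, or the
`(m + 1)`-th last one and followed by `11`.
-/

namespace Pool.Agent.Results.MP_26672a_co.EveryLength

open Finset

/-! ### Definitions -/

/-- The number of positions of the word `w` which are equal to the letter `x` (the letters
`1, …, r` are the elements `0, …, r - 1` of `Fin r`). -/
def cnt {r n : ℕ} (x : ℕ) (w : Fin n → Fin r) : ℕ :=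
  (univ.filter fun i => (w i).val + 1 = x).card

/-- The deletion shadow. -/
def shadow {r m : ℕ} (F : Finset (Fin (m + 1) → Fin r)) : Finset (Fin m → Fin r) :=
  univ.filter fun u => ∃ w ∈ F, ∃ i : Fin (m + 1), i.removeNth w = u

/-- `F` has minimal deletion shadow given its size. -/
def HasMinimalShadow {r m : ℕ} (F : Finset (Fin (m + 1) → Fin r)) : Prop :=
  ∀ G : Finset (Fin (m + 1) → Fin r), G.card = F.card → (shadow F).card ≤ (shadow G).card

/-- The family `F_{s,k,l}` of words of length `n` over the alphabet with `r` letters. -/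
def fam (r n s k l : ℕ) : Finset (Fin n → Fin r) :=
  univ.filter fun w => (∀ i, (w i).val + 1 ≤ s) ∧
    (cnt s w ≤ k ∨ (cnt s w = k + 1 ∧ cnt (s - 1) w ≤ l))

/-! ### Binary words, and words with one letter `3` -/

section

variable {r : ℕ} (hr : 3 ≤ r)

/-- the word over the first two letters given by a binary word -/
def emb {N : ℕ} (u : Fin N → Bool) : Fin N → Fin r :=
  fun j => if u j = true then ⟨1, by omega⟩ else ⟨0, by omega⟩

/-- the word with exactly one letter `3`, in the position `p.1` -/
def one {N : ℕ} (p : Fin (N + 1) × (Fin N → Bool)) : Fin (N + 1) → Fin r :=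
  Fin.insertNth (α := fun _ => Fin r) p.1 ⟨2, by omega⟩ (emb hr p.2)

lemma emb_val {N : ℕ} (u : Fin N → Bool) (j : Fin N) :
    (emb hr u j).val = if u j = true then 1 else 0 := by
  unfold emb
  split_ifs <;> rfl

lemma emb_inj {N : ℕ} : Function.Injective (emb hr : (Fin N → Bool) → Fin N → Fin r) := by
  intro u v h
  funext j
  have h1 := congrArg Fin.val (congrFun h j)
  rw [emb_val, emb_val] at h1
  cases hu : u j <;> cases hv : v j <;> simp [hu, hv] at h1 ⊢

lemma one_same {N : ℕ} (i : Fin (N + 1)) (u : Fin N → Bool) :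
    (one hr (i, u) i).val = 2 := by
  unfold one
  rw [Fin.insertNth_apply_same]

lemma one_succAbove {N : ℕ} (i : Fin (N + 1)) (u : Fin N → Bool) (j : Fin N) :
    one hr (i, u) (i.succAbove j) = emb hr u j := by
  unfold one
  rw [Fin.insertNth_apply_succAbove]

lemma one_inj {N : ℕ} : Function.Injective
    (one hr : Fin (N + 1) × (Fin N → Bool) → Fin (N + 1) → Fin r) := by
  rintro ⟨i, u⟩ ⟨j, v⟩ h
  have hij : i = j := by
    by_contra hne
    obtain ⟨k, hk⟩ := Fin.exists_succAbove_eq hne
    have h1 := one_same hr i u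
    rw [h, ← hk, one_succAbove, emb_val] at h1
    split_ifs at h1; omega
  subst hij
  have : u = v := by
    apply emb_inj hr
    funext k
    rw [← one_succAbove hr i u k, h, one_succAbove]
  rw [this]

lemma emb_ne_one {N : ℕ} (v : Fin (N + 1) → Bool) (p : Fin (N + 1) × (Fin N → Bool)) :
    emb hr v ≠ one hr p := by
  intro h
  have h1 := one_same hr p.1 p.2
  rw [← h, emb_val] at h1
  split_ifs at h1; omega

/-- the words over two letters, and the words with one letter `3` given by the pairs in `S` -/
def W {N : ℕ} (S : Finset (Fin (N + 1) × (Fin N → Bool))) : Finset (Fin (N + 1) → Fin r) :=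
  univ.image (emb hr) ∪ S.image (one hr)

lemma card_W {N : ℕ} (S : Finset (Fin (N + 1) × (Fin N → Bool))) :
    (W hr S).card = 2 ^ (N + 1) + S.card := by
  unfold W
  rw [card_union_of_disjoint, card_image_of_injective _ (emb_inj hr),
    card_image_of_injective _ (one_inj hr)]
  · simp
  · rw [disjoint_left]
    intro w h1 h2
    obtain ⟨v, _, rfl⟩ := mem_image.1 h1
    obtain ⟨p, _, hp⟩ := mem_image.1 h2
    exact emb_ne_one hr v p hp.symm

/-! ### Deleting a letter -/

lemma remove_emb {N : ℕ} (v : Fin (N + 1) → Bool) (j : Fin (N + 1)) :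
    j.removeNth (emb hr v) = emb hr (j.removeNth v) := rfl

lemma remove_one_same {N : ℕ} (i : Fin (N + 1)) (u : Fin N → Bool) :
    i.removeNth (one hr (i, u)) = emb hr u := by
  funext k
  exact one_succAbove hr i u k

lemma remove_one {N : ℕ} (i : Fin (N + 2)) (u : Fin (N + 1) → Bool) (j : Fin (N + 1)) :
    (i.succAbove j).removeNth (one hr (i, u)) = one hr (j.predAbove i, j.removeNth u) := by
  funext k
  rcases Fin.eq_self_or_eq_succAbove (j.predAbove i) k with rfl | ⟨l, rfl⟩
  · change one hr (i, u) ((i.succAbove j).succAbove (j.predAbove i)) = _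
    rw [Fin.succAbove_succAbove_predAbove]
    apply Fin.ext
    rw [one_same, one_same]
  · change one hr (i, u) ((i.succAbove j).succAbove ((j.predAbove i).succAbove l)) = _
    rw [Fin.succAbove_succAbove_succAbove_predAbove, one_succAbove, one_succAbove]
    rfl

lemma shadow_W {N : ℕ} (S : Finset (Fin (N + 2) × (Fin (N + 1) → Bool)))
    (T : Finset (Fin (N + 1) × (Fin N → Bool)))
    (h : ∀ i u, (i, u) ∈ S → ∀ j : Fin (N + 1), (j.predAbove i, j.removeNth u) ∈ T) :
    shadow (W hr S) ⊆ W hr T := by
  intro v hv
  obtain ⟨w, hw, i, rfl⟩ := (mem_filter.1 hv).2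
  unfold W at hw ⊢
  rw [mem_union] at hw ⊢
  rcases hw with hw | hw
  · obtain ⟨v, _, rfl⟩ := mem_image.1 hw
    exact Or.inl (mem_image.2 ⟨_, mem_univ _, (remove_emb hr v i).symm⟩)
  · obtain ⟨⟨l, u⟩, hp, rfl⟩ := mem_image.1 hw
    rcases Fin.eq_self_or_eq_succAbove l i with rfl | ⟨j, rfl⟩
    · rw [remove_one_same]
      exact Or.inl (mem_image.2 ⟨_, mem_univ _, rfl⟩)
    · rw [remove_one]
      exact Or.inr (mem_image.2 ⟨_, h l u hp j, rfl⟩)

/-! ### The family -/

/-- the number of letters `true` -/
def tc {N : ℕ} (u : Fin N → Bool) : ℕ := (univ.filter fun j => u j = true).card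

/-- the pairs which correspond to the words of the second level of the family -/
def lvl (N l : ℕ) : Finset (Fin (N + 1) × (Fin N → Bool)) :=
  univ ×ˢ univ.filter fun u => tc u ≤ l

lemma cnt_one {N : ℕ} (x : ℕ) (i : Fin (N + 1)) (w : Fin (N + 1) → Fin r) :
    cnt x w = (if (w i).val + 1 = x then 1 else 0) +
      (univ.filter fun j : Fin N => (w (i.succAbove j)).val + 1 = x).card := by
  unfold cnt
  rw [card_filter, card_filter, Fin.sum_univ_succAbove _ i]

lemma cnt_three_one {N : ℕ} (i : Fin (N + 1)) (u : Fin N → Bool) : cnt 3 (one hr (i, u)) = 1 := by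
  rw [cnt_one 3 i, one_same]
  simp only [one_succAbove, emb_val]
  rw [filter_false_of_mem]
  · simp
  · intro j _
    split_ifs <;> omega

lemma cnt_two_one {N : ℕ} (i : Fin (N + 1)) (u : Fin N → Bool) :
    cnt 2 (one hr (i, u)) = tc u := by
  rw [cnt_one 2 i, one_same]
  simp only [one_succAbove, emb_val]
  unfold tc
  simp only [Nat.reduceAdd, Nat.reduceEqDiff, if_false, zero_add]
  congr 1
  ext j
  simp only [mem_filter, mem_univ, true_and]
  cases u j <;> simp

lemma fam_eq (N l : ℕ) : fam r (N + 1) 3 0 l = W hr (lvl N l) := by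
  ext w
  unfold fam W
  rw [mem_filter, mem_union, mem_image, mem_image]
  constructor
  · rintro ⟨-, h1, h2⟩
    rcases h2 with h2 | ⟨h2, h3⟩
    · left
      refine ⟨fun j => decide ((w j).val = 1), mem_univ _, ?_⟩
      funext j
      apply Fin.ext
      rw [emb_val]
      have h4 : (univ.filter fun i => (w i).val + 1 = 3) = ∅ := card_eq_zero.1 (by
        unfold cnt at h2; omega)
      have h5 : ¬ (w j).val + 1 = 3 := fun h => by
        have : j ∈ (univ.filter fun i => (w i).val + 1 = 3) := mem_filter.2 ⟨mem_univ _, h⟩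
        rw [h4] at this
        exact absurd this (notMem_empty _)
      have h6 := h1 j
      by_cases h7 : (w j).val = 1
      · simp [h7]
      · simp only [h7, decide_false, Bool.false_eq_true, if_false]
        omega
    · right
      have h4 : (univ.filter fun i => (w i).val + 1 = 3).Nonempty := card_pos.1 (by
        unfold cnt at h2; omega)
      obtain ⟨i, hi⟩ := h4
      have hi' := (mem_filter.1 hi).2
      have h5 := cnt_one 3 i w
      rw [h2, if_pos hi'] at h5
      have h6 : (univ.filter fun j : Fin N => (w (i.succAbove j)).val + 1 = 3) = ∅ :=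
        card_eq_zero.1 (by omega)
      have h7 : w = one hr (i, fun j => decide ((w (i.succAbove j)).val = 1)) := by
        funext k
        rcases Fin.eq_self_or_eq_succAbove i k with rfl | ⟨j, rfl⟩
        · apply Fin.ext
          rw [one_same]
          omega
        · rw [one_succAbove]
          apply Fin.ext
          rw [emb_val]
          have h8 : ¬ (w (i.succAbove j)).val + 1 = 3 := fun h => by
            have : j ∈ (univ.filter fun j : Fin N => (w (i.succAbove j)).val + 1 = 3) :=
              mem_filter.2 ⟨mem_univ _, h⟩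
            rw [h6] at this
            exact absurd this (notMem_empty _)
          have h9 := h1 (i.succAbove j)
          by_cases h10 : (w (i.succAbove j)).val = 1
          · simp [h10]
          · simp only [h10, decide_false, Bool.false_eq_true, if_false]
            omega
      refine ⟨_, ?_, h7.symm⟩
      unfold lvl
      rw [mem_product, mem_filter]
      refine ⟨mem_univ _, mem_univ _, ?_⟩
      rw [h7] at h3
      rw [cnt_two_one] at h3
      exact h3
  · rintro (⟨v, -, rfl⟩ | ⟨⟨i, u⟩, hp, rfl⟩)
    · refine ⟨mem_univ _, fun i => ?_, Or.inl ?_⟩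
      · rw [emb_val]
        split_ifs <;> omega
      · unfold cnt
        rw [filter_false_of_mem]
        · simp
        · intro i _
          rw [emb_val]
          split_ifs <;> omega
    · refine ⟨mem_univ _, fun j => ?_, Or.inr ⟨cnt_three_one hr i u, ?_⟩⟩
      · rcases Fin.eq_self_or_eq_succAbove i j with rfl | ⟨k, rfl⟩
        · rw [one_same]
        · rw [one_succAbove, emb_val]
          split_ifs <;> omega
      · rw [cnt_two_one]
        unfold lvl at hp
        exact (mem_filter.1 (mem_product.1 hp).2).2

lemma tc_cons {N : ℕ} (u : Fin N → Bool) (j : Fin (N + 1)) :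
    tc (Fin.insertNth (α := fun _ => Bool) j false u) = tc u := by
  unfold tc
  rw [card_filter, card_filter, Fin.sum_univ_succAbove _ j]
  simp

lemma fam_sub_shadow (N l : ℕ) :
    W hr (lvl N l) ⊆ shadow (W hr (lvl (N + 1) l)) := by
  intro w hw
  unfold shadow
  rw [mem_filter]
  refine ⟨mem_univ _, ?_⟩
  unfold W at hw ⊢
  rw [mem_union] at hw
  rcases hw with hw | hw
  · obtain ⟨v, _, rfl⟩ := mem_image.1 hw
    refine ⟨emb hr (Fin.insertNth (α := fun _ => Bool) 0 false v), ?_, 0, ?_⟩
    · rw [mem_union]
      exact Or.inl (mem_image.2 ⟨_, mem_univ _, rfl⟩)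
    · rw [remove_emb, Fin.removeNth_insertNth]
  · obtain ⟨⟨i, u⟩, hp, rfl⟩ := mem_image.1 hw
    refine ⟨one hr (i.succ, Fin.insertNth (α := fun _ => Bool) 0 false u), ?_,
      i.succ.succAbove 0, ?_⟩
    · rw [mem_union]
      refine Or.inr (mem_image.2 ⟨_, ?_, rfl⟩)
      unfold lvl at hp ⊢
      rw [mem_product, mem_filter] at hp ⊢
      refine ⟨mem_univ _, mem_univ _, ?_⟩
      rw [tc_cons]
      exact hp.2.2
    · rw [remove_one, Fin.removeNth_insertNth]
      congr 2

end

/-! ### Counting -/

/-- the number of binary words of length `N` with at most `l` letters `true` -/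
def A (N l : ℕ) : ℕ := (univ.filter fun u : Fin N → Bool => tc u ≤ l).card

lemma card_lvl (N l : ℕ) : (lvl N l).card = (N + 1) * A N l := by
  unfold lvl A
  rw [card_product, card_univ, Fintype.card_fin]

lemma tc_not {N : ℕ} (u : Fin N → Bool) : tc (fun j => !u j) + tc u = N := by
  unfold tc
  have h := card_filter_add_card_filter_not (s := (univ : Finset (Fin N))) (fun j => u j = true)
  rw [card_univ, Fintype.card_fin] at h
  rw [add_comm]
  convert h using 3
  ext j
  simp

/-- the complement -/
def neg (N : ℕ) : (Fin N → Bool) ≃ (Fin N → Bool) where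
  toFun u j := !u j
  invFun u j := !u j
  left_inv u := by funext j; simp
  right_inv u := by funext j; simp

lemma A_compl (N l : ℕ) :
    (univ.filter fun u : Fin N → Bool => N ≤ tc u + l).card = A N l := by
  unfold A
  apply card_bijective (neg N) (neg N).bijective
  intro u
  simp only [mem_filter, mem_univ, true_and]
  have h := tc_not u
  change N ≤ tc u + l ↔ tc (fun j => !u j) ≤ l
  omega

lemma total (N l : ℕ) : A N l + (univ.filter fun u : Fin N → Bool => l < tc u).card = 2 ^ N := by
  have h := card_filter_add_card_filter_not (s := (univ : Finset (Fin N → Bool))) (fun u => tc u ≤ l)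
  simp only [not_le] at h
  unfold A
  rw [h]
  simp

/-- odd length -/
lemma A_odd (M : ℕ) : 2 * A (2 * M + 1) M = 2 ^ (2 * M + 1) := by
  have h1 := total (2 * M + 1) M
  have h2 := A_compl (2 * M + 1) M
  have h3 : (univ.filter fun u : Fin (2 * M + 1) → Bool => 2 * M + 1 ≤ tc u + M) =
      (univ.filter fun u : Fin (2 * M + 1) → Bool => M < tc u) := by
    apply filter_congr
    intro u _
    omega
  rw [h3] at h2
  omega

lemma card_tc_eq (N M : ℕ) : (univ.filter fun u : Fin N → Bool => tc u = M).card = N.choose M := by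
  have h : (powersetCard M (univ : Finset (Fin N))).card = N.choose M := by
    rw [card_powersetCard, card_univ, Fintype.card_fin]
  rw [← h]
  refine card_nbij' (fun u => univ.filter fun j => u j = true) (fun s j => decide (j ∈ s))
    ?_ ?_ ?_ ?_
  · intro u hu
    rw [mem_coe, mem_filter] at hu
    rw [mem_coe, mem_powersetCard]
    exact ⟨subset_univ _, hu.2⟩
  · intro s hs
    rw [mem_coe, mem_filter]
    refine ⟨mem_univ _, ?_⟩
    unfold tc
    have hs' := (mem_powersetCard.1 (mem_coe.1 hs)).2
    simp [hs']
  · intro u _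
    funext j
    simp
  · intro s _
    ext j
    simp

lemma le_eq_add (N M : ℕ) : A N (M + 1) = A N M + N.choose (M + 1) := by
  rw [← card_tc_eq]
  unfold A
  rw [← card_union_of_disjoint]
  · congr 1
    ext u
    simp only [mem_filter, mem_univ, true_and, mem_union]
    omega
  · rw [disjoint_filter]
    intro u _ h
    omega

/-- even length, at most one half -/
lemma A_even (M : ℕ) : 2 * A (2 * M) M = 4 ^ M + M.centralBinom := by
  have h1 := total (2 * M) M
  have h2 := A_compl (2 * M) M
  have h3 : (univ.filter fun u : Fin (2 * M) → Bool => 2 * M ≤ tc u + M) =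
      (univ.filter fun u : Fin (2 * M) → Bool => M < tc u) ∪
        (univ.filter fun u : Fin (2 * M) → Bool => tc u = M) := by
    ext u
    simp only [mem_filter, mem_univ, true_and, mem_union]
    omega
  rw [h3, card_union_of_disjoint, card_tc_eq] at h2
  · rw [pow_mul] at h1
    unfold Nat.centralBinom
    norm_num at h1
    omega
  · rw [disjoint_filter]
    intro u _ h
    omega

/-- even length, less than one half -/
lemma A_even' (M : ℕ) : 2 * A (2 * (M + 1)) M + (M + 1).centralBinom = 4 ^ (M + 1) := by
  have h1 := A_even (M + 1)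
  have h2 := le_eq_add (2 * (M + 1)) M
  unfold Nat.centralBinom at *
  omega

/-! ### The competitor -/

/-- The allowed pairs: the letter `3` is one of the last `t` letters, or (if `b` holds) the letter
before them and followed by `1`, or the letter before that and followed by `11`. -/
def al (N t : ℕ) (b : Prop) (p : Fin (N + 1) × (Fin N → Bool)) : Prop :=
  N < p.1.val + t ∨
    (b ∧ N = p.1.val + t ∧ ∀ k : Fin N, k.val = p.1.val → p.2 k = false) ∨
    (b ∧ N = p.1.val + t + 1 ∧ ∀ k : Fin N, k.val = p.1.val ∨ k.val = p.1.val + 1 → p.2 k = false)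

open Classical in
/-- the finite set of allowed pairs -/
noncomputable def alS (N t : ℕ) (b : Prop) : Finset (Fin (N + 1) × (Fin N → Bool)) :=
  univ.filter (al N t b)

lemma al_remove {N t : ℕ} {b : Prop} (i : Fin (N + 2)) (u : Fin (N + 1) → Bool)
    (h : al (N + 1) t b (i, u)) (j : Fin (N + 1)) :
    al N t b (j.predAbove i, j.removeNth u) := by
  have hj := j.2
  have hi := i.2
  have hrem : ∀ k : Fin N, j.removeNth u k = u (j.succAbove k) := fun k => rfl
  have hsv : ∀ k : Fin N, (j.succAbove k).val = if k.val < j.val then k.val else k.val + 1 := by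
    intro k
    unfold Fin.succAbove
    by_cases hk : k.castSucc < j
    · have : k.val < j.val := hk
      rw [if_pos hk, if_pos this]
      rfl
    · have : ¬ k.val < j.val := hk
      rw [if_neg hk, if_neg this]
      rfl
  by_cases hc : j.castSucc < i
  · -- a letter before the letter `3` is removed
    have hv : (j.predAbove i).val = i.val - 1 := by
      rw [Fin.predAbove_of_castSucc_lt _ _ hc]
      rfl
    have hlt : j.val < i.val := hc
    rcases h with h | ⟨hb, h1, h2⟩ | ⟨hb, h1, h2⟩
    · left
      simp only at h ⊢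
      omega
    · right; left
      simp only at h1 h2 ⊢
      refine ⟨hb, by omega, fun k hk => ?_⟩
      rw [hrem]
      apply h2
      rw [hsv]
      split_ifs <;> omega
    · right; right
      simp only at h1 h2 ⊢
      refine ⟨hb, by omega, fun k hk => ?_⟩
      rw [hrem]
      apply h2
      rw [hsv]
      split_ifs <;> omega
  · have hc' : i ≤ j.castSucc := not_lt.1 hc
    have hv : (j.predAbove i).val = i.val := by
      rw [Fin.predAbove_of_le_castSucc _ _ hc']
      rfl
    have hle : i.val ≤ j.val := hc'
    rcases h with h | ⟨hb, h1, h2⟩ | ⟨hb, h1, h2⟩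
    · left
      simp only at h ⊢
      omega
    · left
      simp only at h1 ⊢
      omega
    · right; left
      simp only at h1 h2 ⊢
      refine ⟨hb, by omega, fun k hk => ?_⟩
      rw [hrem]
      apply h2
      rw [hsv]
      split_ifs <;> omega

lemma card_last (N t : ℕ) (ht : t ≤ N + 1) :
    (univ.filter fun i : Fin (N + 1) => N < i.val + t).card = t := by
  rw [card_filter, Fin.sum_univ_eq_sum_range (fun i => if N < i + t then 1 else 0) (N + 1),
    ← card_filter]
  have : (range (N + 1)).filter (fun i => N < i + t) = Ico (N + 1 - t) (N + 1) := by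
    ext i
    simp only [mem_filter, mem_range, mem_Ico]
    omega
  rw [this, Nat.card_Ico]
  omega

lemma card_zeros {N : ℕ} (D : Finset (Fin N)) :
    (univ.filter fun u : Fin N → Bool => ∀ k ∈ D, u k = false).card = 2 ^ (N - D.card) := by
  have h1 : (univ.filter fun u : Fin N → Bool => ∀ k ∈ D, u k = false) =
      Fintype.piFinset fun k => if k ∈ D then ({false} : Finset Bool) else univ := by
    ext u
    simp only [mem_filter, mem_univ, true_and, Fintype.mem_piFinset]
    refine forall_congr' fun k => ?_
    by_cases hk : k ∈ D <;> simp [hk]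
  rw [h1, Fintype.card_piFinset]
  have h2 : ∀ k : Fin N, (if k ∈ D then ({false} : Finset Bool) else univ).card =
      if k ∈ D then 1 else 2 := by
    intro k
    split_ifs <;> simp
  simp only [h2]
  rw [prod_ite, prod_const_one, one_mul, prod_const]
  congr 1
  have h3 : (univ.filter fun k => k ∉ D) = Dᶜ := by
    ext k; simp
  rw [h3, card_compl, Fintype.card_fin]

lemma card_alS_false (N t : ℕ) (ht : t ≤ N + 1) : (alS N t False).card = t * 2 ^ N := by
  classical
  have : alS N t False = (univ.filter fun i : Fin (N + 1) => N < i.val + t) ×ˢ univ := by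
    ext ⟨i, u⟩
    simp [alS, al]
  rw [this, card_product, card_last N t ht]
  simp

lemma card_alS_true (N t : ℕ) (ht : 1 ≤ t) (hN : t + 1 ≤ N) :
    (alS N t True).card = t * 2 ^ N + 2 ^ (N - 1) + 2 ^ (N - 2) := by
  classical
  let i0 : Fin (N + 1) := ⟨N - t, by omega⟩
  let i1 : Fin (N + 1) := ⟨N - t - 1, by omega⟩
  let k0 : Fin N := ⟨N - t, by omega⟩
  let k1 : Fin N := ⟨N - t - 1, by omega⟩
  have hk : k1 ≠ k0 := by
    intro h
    have := congrArg Fin.val h
    simp only [k0, k1] at this
    omega
  have h : alS N t True = ((univ.filter fun i : Fin (N + 1) => N < i.val + t) ×ˢ univ) ∪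
      (({i0} ×ˢ univ.filter fun u : Fin N → Bool => ∀ k ∈ ({k0} : Finset (Fin N)), u k = false) ∪
      ({i1} ×ˢ univ.filter fun u : Fin N → Bool =>
        ∀ k ∈ ({k1, k0} : Finset (Fin N)), u k = false)) := by
    ext ⟨i, u⟩
    simp only [alS, al, mem_filter, mem_univ, true_and, mem_union, mem_product, mem_singleton,
      and_true, mem_insert, forall_eq_or_imp, forall_eq]
    have hi0 : i = i0 ↔ N = i.val + t := by
      rw [Fin.ext_iff]
      simp only [i0]
      omega
    have hi1 : i = i1 ↔ N = i.val + t + 1 := by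
      rw [Fin.ext_iff]
      simp only [i1]
      omega
    rw [hi0, hi1]
    refine or_congr Iff.rfl (or_congr (and_congr_right fun h1 => ?_) (and_congr_right fun h1 => ?_))
    · constructor
      · intro h2
        apply h2
        simp only [k0]
        omega
      · intro h2 k hk'
        have : k = k0 := Fin.ext (by simp only [k0]; omega)
        rw [this]; exact h2
    · constructor
      · intro h2
        refine ⟨h2 k1 (Or.inl ?_), h2 k0 (Or.inr ?_)⟩
        · simp only [k1]; omega
        · simp only [k0]; omega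
      · rintro ⟨h2, h3⟩ k (hk' | hk')
        · have : k = k1 := Fin.ext (by simp only [k1]; omega)
          rw [this]; exact h2
        · have : k = k0 := Fin.ext (by simp only [k0]; omega)
          rw [this]; exact h3
  rw [h, card_union_of_disjoint, card_union_of_disjoint, card_product, card_product, card_product,
    card_last N t (by omega), card_zeros, card_zeros, card_singleton, card_singleton,
    card_singleton, card_pair hk]
  · simp
    ring
  · rw [disjoint_left]
    rintro ⟨i, u⟩ h1 h2
    rw [mem_product, mem_singleton] at h1 h2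
    have := congrArg Fin.val (h1.1.symm.trans h2.1)
    simp only [i0, i1] at this
    omega
  · rw [disjoint_left]
    rintro ⟨i, u⟩ h1 h2
    rw [mem_product, mem_filter] at h1
    have h3 := h1.1.2
    rw [mem_union, mem_product, mem_product, mem_singleton, mem_singleton] at h2
    rcases h2 with ⟨h2, -⟩ | ⟨h2, -⟩
    · simp only at h2 h3
      rw [h2] at h3
      simp only [i0] at h3
      omega
    · simp only at h2 h3
      rw [h2] at h3
      simp only [i1] at h3
      omega

/-! ### The conclusion -/

lemma not_minimal {r N l t : ℕ} {b : Prop} (hr : 3 ≤ r)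
    (h1 : (N + 1 + 1) * A (N + 1) l ≤ (alS (N + 1) t b).card)
    (h2 : (alS N t b).card < (N + 1) * A N l) :
    ¬ HasMinimalShadow (fam r (N + 2) 3 0 l) := by
  classical
  intro h
  have hG : (fam r (N + 2) 3 0 l).card ≤ (W hr (alS (N + 1) t b)).card := by
    rw [fam_eq hr (N + 1) l, card_W, card_W, card_lvl]
    exact Nat.add_le_add_left h1 _
  obtain ⟨G, hG1, hG2⟩ := exists_subset_card_eq hG
  have h3 := h G hG2
  have h4 : shadow G ⊆ W hr (alS N t b) := by
    refine Subset.trans ?_ (shadow_W hr (alS (N + 1) t b) (alS N t b) ?_)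
    · intro v hv
      unfold shadow at hv ⊢
      rw [mem_filter] at hv ⊢
      obtain ⟨w, hw, i, hi⟩ := hv.2
      exact ⟨hv.1, w, hG1 hw, i, hi⟩
    · intro i u hiu j
      unfold alS at hiu ⊢
      rw [mem_filter] at hiu ⊢
      exact ⟨mem_univ _, al_remove i u hiu.2 j⟩
  have h5 := card_le_card h4
  rw [card_W] at h5
  have h6 := card_le_card (fam_sub_shadow hr N l)
  rw [card_W, card_lvl, ← fam_eq hr (N + 1) l] at h6
  exact absurd (h6.trans (h3.trans h5)) (not_le.2 (Nat.add_lt_add_left h2 _))

lemma central_ineq : ∀ m : ℕ, 2 ≤ m → 3 * 4 ^ m ≤ 2 * (2 * m + 1) * m.centralBinom := by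
  intro m hm
  induction m, hm using Nat.le_induction with
  | base => decide
  | succ m hm ih =>
    have h1 := Nat.succ_mul_centralBinom_succ m
    have h2 : (m + 1) * (3 * 4 ^ (m + 1)) ≤
        (m + 1) * (2 * (2 * (m + 1) + 1) * (m + 1).centralBinom) := by
      calc (m + 1) * (3 * 4 ^ (m + 1)) = (4 * (m + 1)) * (3 * 4 ^ m) := by ring
        _ ≤ (2 * (2 * (m + 1) + 1)) * (2 * (2 * m + 1) * m.centralBinom) :=
            Nat.mul_le_mul (by omega) ih
        _ = (2 * (2 * (m + 1) + 1)) * ((m + 1) * (m + 1).centralBinom) := by rw [h1]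
        _ = _ := by ring
    exact Nat.le_of_mul_le_mul_left h2 (by omega)

/-- **The two-level families do not have minimal shadows.** For every alphabet with `r ≥ 3` letters
and every length `n = m + 1 ≥ 4` the family `F_{3,0,l}` with `l = ⌊n/2⌋ - 1` (for which
`0 ≤ l ≤ n - 0 - 1`) does not have minimal deletion shadow given its size. -/
theorem result (r m : ℕ) (hr : 3 ≤ r) (hm : 3 ≤ m) :
    ¬ HasMinimalShadow (fam r (m + 1) 3 0 ((m + 1) / 2 - 1)) := by
  rcases Nat.even_or_odd' (m + 1) with ⟨M, hM | hM⟩
  · -- `n = 2 M`, `M ≥ 2`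
    obtain ⟨K, rfl⟩ : ∃ K, M = K + 1 := ⟨M - 1, by omega⟩
    obtain rfl : m = 2 * K + 1 := by omega
    have e2 : (2 * K + 1 + 1) / 2 - 1 = K := by omega
    rw [e2]
    refine not_minimal (N := 2 * K) (t := K + 1) (b := False) hr ?_ ?_
    · rw [card_alS_false _ _ (by omega)]
      have h1 := A_odd K
      have h2 : (2 * K + 1 + 1) * A (2 * K + 1) K = (K + 1) * 2 ^ (2 * K + 1) := by
        rw [← h1]; ring
      rw [h2]
    · rw [card_alS_false _ _ (by omega)]
      have h1 := A_even K
      have h2 := Nat.four_pow_le_two_mul_self_mul_centralBinom K (by omega)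
      have h3 : 0 < K.centralBinom := Nat.centralBinom_pos K
      have h4 : (2 : ℕ) ^ (2 * K) = 4 ^ K := by rw [pow_mul]; norm_num
      rw [h4]
      have h5 : 2 * ((2 * K + 1) * A (2 * K) K) = (2 * K + 1) * (4 ^ K + K.centralBinom) := by
        rw [← h1]; ring
      nlinarith
  · -- `n = 2 M + 1`, `M ≥ 2`
    obtain ⟨K, rfl⟩ : ∃ K, M = K + 2 := ⟨M - 2, by omega⟩
    obtain rfl : m = 2 * (K + 1) + 1 + 1 := by omega
    have e2 : (2 * (K + 1) + 1 + 1 + 1) / 2 - 1 = K + 1 := by omega
    rw [e2]
    refine not_minimal (N := 2 * (K + 1) + 1) (t := K + 1) (b := True) hr ?_ ?_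
    · rw [card_alS_true _ _ (by omega) (by omega)]
      have h1 := A_even' (K + 1)
      have h2 := central_ineq (K + 2) (by omega)
      have e3 : 2 * (K + 1) + 1 + 1 = 2 * (K + 1 + 1) := by omega
      have e4 : 2 * (K + 1) + 1 + 1 - 1 = 2 * K + 3 := by omega
      have e5 : 2 * (K + 1) + 1 + 1 - 2 = 2 * (K + 1) := by omega
      rw [e4, e5, e3]
      have h4 : (2 : ℕ) ^ (2 * (K + 1 + 1)) = 4 ^ (K + 1) * 4 := by
        rw [pow_mul]; norm_num [pow_succ]
      have h5 : (2 : ℕ) ^ (2 * K + 3) = 4 ^ (K + 1) * 2 := by
        rw [show 2 * K + 3 = 2 * (K + 1) + 1 by ring, pow_succ, pow_mul]; norm_num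
      have h6 : (2 : ℕ) ^ (2 * (K + 1)) = 4 ^ (K + 1) := by rw [pow_mul]; norm_num
      have h7 : (4 : ℕ) ^ (K + 2) = 4 ^ (K + 1) * 4 := by ring
      have h8 : (4 : ℕ) ^ (K + 1 + 1) = 4 ^ (K + 1) * 4 := by ring
      rw [h4, h5, h6]
      rw [h7] at h2
      rw [h8] at h1
      have e6 : (K + 1 + 1) = K + 2 := rfl
      rw [e6] at h1 ⊢
      generalize A (2 * (K + 2)) (K + 1) = a at *
      generalize (K + 2).centralBinom = c at *
      generalize (4 : ℕ) ^ (K + 1) = q at *
      have h9 : (2 * (K + 2) + 1) * (2 * a) + (2 * (K + 2) + 1) * c =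
          (2 * (K + 2) + 1) * (q * 4) := by
        rw [← h1]; ring
      nlinarith
    · rw [card_alS_true _ _ (by omega) (by omega)]
      have h1 := A_odd (K + 1)
      have e4 : 2 * (K + 1) + 1 - 1 = 2 * K + 2 := by omega
      have e5 : 2 * (K + 1) + 1 - 2 = 2 * K + 1 := by omega
      rw [e4, e5]
      have h2 : (2 : ℕ) ^ (2 * (K + 1) + 1) = 2 ^ (2 * K + 1) * 4 := by
        rw [show 2 * (K + 1) + 1 = (2 * K + 1) + 2 by ring, pow_add]; norm_num
      have h3 : (2 : ℕ) ^ (2 * K + 2) = 2 ^ (2 * K + 1) * 2 := by
        rw [show 2 * K + 2 = (2 * K + 1) + 1 by ring, pow_succ]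
      rw [h2, h3]
      rw [h2] at h1
      have h4 : 0 < (2 : ℕ) ^ (2 * K + 1) := by positivity
      generalize A (2 * (K + 1) + 1) (K + 1) = a at *
      generalize (2 : ℕ) ^ (2 * K + 1) = q at *
      have h5 : (2 * (K + 1) + 1 + 1) * a = (K + 2) * (q * 4) := by
        rw [← h1]; ring
      nlinarith

end Pool.Agent.Results.MP_26672a_co.EveryLength
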